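import Pool.Agent.Helper80.LCH.Xc

set_option autoImplicit false

namespace LCH80

open LCH

universe w

open Classical in
theorem st_XADD : ST_XADD.{w} := by
  intro A _ Φ x x' S S' y y' h h'
  obtain ⟨h1, h2, h3⟩ := h
  obtain ⟨h1', h2', h3'⟩ := h'
  refine ⟨?_, ?_, ?_⟩
  · intro B
    rw [Set.union_inter_distrib_right]
    exact (h1 B).union (h1' B)
  · intro r _
    have e1 : ∃ b : ℝ, (if r ∈ S then y r else 0) ∈ Φ.F b := by
      split_ifs with h
      · exact h2 r h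
      · exact ⟨0, (Φ.F 0).zero_mem⟩
    have e2 : ∃ b : ℝ, (if r ∈ S' then y' r else 0) ∈ Φ.F b := by
      split_ifs with h
      · exact h2' r h
      · exact ⟨0, (Φ.F 0).zero_mem⟩
    obtain ⟨b, hb⟩ := e1
    obtain ⟨b', hb'⟩ := e2
    exact ⟨min b b', (Φ.F _).add_mem (Φ.anti _ _ (min_le_left _ _) hb)
      (Φ.anti _ _ (min_le_right _ _) hb')⟩
  · intro B
    obtain ⟨C, hC⟩ := h3 B
    obtain ⟨C', hC'⟩ := h3' B
    refine ⟨max C C', fun B'' hB'' T hT => ?_⟩
    have e1 := hC B'' ((le_max_left _ _).trans hB'') (T.filter (fun r => r ∈ S)) (by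
      intro r
      rw [Finset.mem_filter, hT]
      constructor
      · rintro ⟨⟨_, hlt⟩, hr⟩
        exact ⟨hr, hlt⟩
      · rintro ⟨hr, hlt⟩
        exact ⟨⟨Or.inl hr, hlt⟩, hr⟩)
    have e2 := hC' B'' ((le_max_right _ _).trans hB'') (T.filter (fun r => r ∈ S')) (by
      intro r
      rw [Finset.mem_filter, hT]
      constructor
      · rintro ⟨⟨_, hlt⟩, hr⟩
        exact ⟨hr, hlt⟩
      · rintro ⟨hr, hlt⟩
        exact ⟨⟨Or.inr hr, hlt⟩, hr⟩)
    have := (Φ.F B).add_mem e1 e2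
    rw [Finset.sum_filter, Finset.sum_filter] at this
    rw [Finset.sum_add_distrib]
    have e : (x - ∑ a ∈ T, if a ∈ S then y a else 0) + (x' - ∑ a ∈ T, if a ∈ S' then y' a else 0)
      = x + x' - ((∑ a ∈ T, if a ∈ S then y a else 0) + ∑ a ∈ T, if a ∈ S' then y' a else 0) := by
      abel
    rw [e] at this
    exact this

end LCH80
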