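import Pool.Agent.Helper80.LCH.Xc

set_option autoImplicit false

namespace LCH80

open LCH

universe w

open Classical in
theorem st_XMUL : ST_XMUL.{w} := by
  intro A _ Φ x x' S S' y y' h h'
  have h1 := h.1
  have h1' := h'.1
  obtain ⟨m, hm⟩ := lower h1
  obtain ⟨m', hm'⟩ := lower h1'
  have hpf : ∀ B : ℝ, {p : ℝ × ℝ | p.1 ∈ S ∧ p.2 ∈ S' ∧ p.1 + p.2 < B}.Finite := by
    intro B
    refine ((TT h1 (B - m')) ×ˢ (TT h1' (B - m))).finite_toSet.subset ?_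
    rintro p ⟨hp1, hp2, hp3⟩
    rw [Finset.mem_coe, Finset.mem_product, mem_TT, mem_TT]
    have := hm _ hp1
    have := hm' _ hp2
    exact ⟨⟨hp1, by linarith⟩, ⟨hp2, by linarith⟩⟩
  refine ⟨?_, ?_⟩
  · intro s
    refine (hpf (s + 1)).subset ?_
    rintro p ⟨hp1, hp2, hp3⟩
    exact ⟨hp1, hp2, by linarith⟩
  · intro w hw
    have hSfin : ∀ B : ℝ,
        ({s | ∃ p : ℝ × ℝ, p.1 ∈ S ∧ p.2 ∈ S' ∧ p.1 + p.2 = s} ∩ Set.Iio B).Finite := by
      intro B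
      refine ((hpf B).image (fun p => p.1 + p.2)).subset ?_
      rintro s ⟨⟨p, hp1, hp2, rfl⟩, hlt⟩
      exact ⟨p, ⟨hp1, hp2, hlt⟩, rfl⟩
    obtain ⟨c1, hc1⟩ := unif h
    obtain ⟨c2, hc2⟩ := unif h'
    obtain ⟨hy, hx⟩ := hc1 (max c1 c2) (le_max_left _ _)
    obtain ⟨hy', hx'⟩ := hc2 (max c1 c2) (le_max_right _ _)
    generalize max c1 c2 = c at hy hx hy' hx'
    have hws : ∀ s : ℝ, w s ∈ Φ.F (-c + -c) := by
      intro s
      have hf : {p : ℝ × ℝ | p.1 ∈ S ∧ p.2 ∈ S' ∧ p.1 + p.2 = s}.Finite := by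
        refine (hpf (s + 1)).subset ?_
        rintro p ⟨hp1, hp2, hp3⟩
        exact ⟨hp1, hp2, by linarith⟩
      rw [hw s hf.toFinset (by intro p; rw [Set.Finite.mem_toFinset]; exact Iff.rfl)]
      refine (Φ.F _).sum_mem (fun p hp => ?_)
      rw [Set.Finite.mem_toFinset] at hp
      exact Φ.mul _ _ _ _ (hy _ hp.1) (hy' _ hp.2.1)
    refine ⟨hSfin, fun r _ => ⟨_, hws r⟩, ?_⟩
    intro B
    obtain ⟨Ba, hBa⟩ := h.2.2 (B + c)
    obtain ⟨Bb, hBb⟩ := h'.2.2 (B + c)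
    obtain ⟨Ra, hRa⟩ := growth h (B + c)
    obtain ⟨Rb, hRb⟩ := growth h' (B + c)
    obtain ⟨R, hR1, hR2, hR3, hR4⟩ : ∃ R : ℝ, Ba ≤ R ∧ Bb ≤ R ∧ Ra ≤ R ∧ Rb ≤ R :=
      ⟨max (max Ba Bb) (max Ra Rb), (le_max_left _ _).trans (le_max_left _ _),
        (le_max_right _ _).trans (le_max_left _ _), (le_max_left _ _).trans (le_max_right _ _),
        (le_max_right _ _).trans (le_max_right _ _)⟩
    refine ⟨2 * R, fun B'' hB'' T hT => ?_⟩
    have hWm : ∀ p : ℝ × ℝ, p ∈ (hpf B'').toFinset ↔ p.1 ∈ S ∧ p.2 ∈ S' ∧ p.1 + p.2 < B'' := by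
      intro p
      rw [Set.Finite.mem_toFinset]
      exact Iff.rfl
    generalize (hpf B'').toFinset = W at hWm
    have hsum : ∑ s ∈ T, w s = ∑ p ∈ W, y p.1 * y' p.2 := by
      rw [← Finset.sum_fiberwise_of_maps_to (s := W) (t := T) (g := fun p => p.1 + p.2)]
      · refine Finset.sum_congr rfl (fun s hs => ?_)
        apply hw
        intro p
        rw [Finset.mem_filter, hWm]
        constructor
        · rintro ⟨⟨hp1, hp2, _⟩, hp3⟩
          exact ⟨hp1, hp2, hp3⟩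
        · rintro ⟨hp1, hp2, hp3⟩
          exact ⟨⟨hp1, hp2, by rw [hp3]; exact ((hT s).mp hs).2⟩, hp3⟩
      · intro p hp
        obtain ⟨hp1, hp2, hp3⟩ := (hWm p).mp hp
        exact (hT _).mpr ⟨⟨p, hp1, hp2, rfl⟩, hp3⟩
    have hW0 : (TT h1 R) ×ˢ (TT h1' R) ⊆ W := by
      intro p hp
      rw [Finset.mem_product, mem_TT, mem_TT] at hp
      rw [hWm]
      exact ⟨hp.1.1, hp.2.1, by linarith [hp.1.2, hp.2.2]⟩
    have hsplit := Finset.sum_sdiff hW0 (f := fun p : ℝ × ℝ => y p.1 * y' p.2)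
    have hrest : ∑ p ∈ W \ ((TT h1 R) ×ˢ (TT h1' R)), y p.1 * y' p.2 ∈ Φ.F B := by
      refine (Φ.F B).sum_mem (fun p hp => ?_)
      rw [Finset.mem_sdiff, hWm, Finset.mem_product, mem_TT, mem_TT] at hp
      obtain ⟨⟨hp1, hp2, _⟩, hp4⟩ := hp
      by_cases ha : p.1 < R
      · by_cases hb : p.2 < R
        · exact absurd ⟨⟨hp1, ha⟩, ⟨hp2, hb⟩⟩ hp4
        · have := Φ.mul _ _ _ _ (hy _ hp1) (hRb _ hp2 (hR4.trans (not_lt.mp hb)))
          have e : -c + (B + c) = B := by ring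
          rw [e] at this
          exact this
      · have := Φ.mul _ _ _ _ (hRa _ hp1 (hR3.trans (not_lt.mp ha))) (hy' _ hp2)
        have e : B + c + -c = B := by ring
        rw [e] at this
        exact this
    have hprod : ∑ p ∈ (TT h1 R) ×ˢ (TT h1' R), y p.1 * y' p.2
        = (∑ r ∈ TT h1 R, y r) * (∑ r ∈ TT h1' R, y' r) := by
      rw [Finset.sum_mul_sum, Finset.sum_product]
    have e1 : (x - ∑ r ∈ TT h1 R, y r) * x' ∈ Φ.F B := by
      have := Φ.mul _ _ _ _ (hBa R hR1 (TT h1 R) (mem_TT h1 R)) hx'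
      have e : B + c + -c = B := by ring
      rw [e] at this
      exact this
    have e2 : (∑ r ∈ TT h1 R, y r) * (x' - ∑ r ∈ TT h1' R, y' r) ∈ Φ.F B := by
      have hX : ∑ r ∈ TT h1 R, y r ∈ Φ.F (-c) :=
        (Φ.F _).sum_mem (fun r hr => hy r ((mem_TT h1 _ _).mp hr).1)
      have := Φ.mul _ _ _ _ hX (hBb R hR2 (TT h1' R) (mem_TT h1' R))
      have e : -c + (B + c) = B := by ring
      rw [e] at this
      exact this
    rw [hsum, ← hsplit, hprod]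
    have := (Φ.F B).sub_mem ((Φ.F B).add_mem e1 e2) hrest
    have e : (x - ∑ r ∈ TT h1 R, y r) * x' + (∑ r ∈ TT h1 R, y r) * (x' - ∑ r ∈ TT h1' R, y' r)
        - ∑ p ∈ W \ ((TT h1 R) ×ˢ (TT h1' R)), y p.1 * y' p.2
        = x * x' - (∑ p ∈ W \ ((TT h1 R) ×ˢ (TT h1' R)), y p.1 * y' p.2
          + (∑ r ∈ TT h1 R, y r) * (∑ r ∈ TT h1' R, y' r)) := by
      rw [sub_mul, mul_sub]
      abel
    rw [e] at this
    exact this

end LCH80
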