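import Pool.Agent.Helper80.LCH.Xc

set_option autoImplicit false

namespace LCH80

open LCH

universe w

theorem st_XSH : ST_XSH.{w} := by
  intro A _ Φ x u S y b q h hu
  obtain ⟨h1, h2, h3⟩ := h
  have hfin : ∀ B : ℝ, ({r | r - q ∈ S} ∩ Set.Iio B).Finite := by
    intro B
    refine ((h1 (B - q)).image (fun r => r + q)).subset ?_
    rintro r ⟨hr, hlt⟩
    have hlt' : r < B := hlt
    exact ⟨r - q, ⟨hr, show r - q < B - q by linarith⟩, by ring⟩
  have key : ∀ (B : ℝ), ∃ B' : ℝ, ∀ B'' : ℝ, B' ≤ B'' → ∀ T : Finset ℝ,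
      (∀ r, r ∈ T ↔ r ∈ {r | r - q ∈ S} ∧ r < B'') → x - ∑ r ∈ T, y (r - q) ∈ Φ.F (B - b) := by
    intro B
    obtain ⟨B', hB'⟩ := h3 (B - b)
    refine ⟨B' + q, fun B'' hB'' T hT => ?_⟩
    have hinj : Set.InjOn (fun r : ℝ => r - q) (T : Set ℝ) := by
      intro r _ r' _ hrr
      have : r - q = r' - q := hrr
      linarith
    have := hB' (B'' - q) (by linarith) (T.image (fun r => r - q)) (by
      intro r
      rw [Finset.mem_image]
      constructor
      · rintro ⟨r', hr', rfl⟩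
        obtain ⟨h4, h5⟩ := (hT r').mp hr'
        exact ⟨h4, by linarith⟩
      · rintro ⟨h4, h5⟩
        refine ⟨r + q, (hT _).mpr ⟨?_, by linarith⟩, by ring⟩
        have e : r + q - q = r := by ring
        change r + q - q ∈ S
        rw [e]
        exact h4)
    rw [Finset.sum_image hinj] at this
    exact this
  refine ⟨⟨hfin, ?_, ?_⟩, ⟨hfin, ?_, ?_⟩⟩
  · intro r hr
    obtain ⟨b', hb'⟩ := h2 (r - q) hr
    exact ⟨b' + b, Φ.mul _ _ _ _ hb' hu⟩
  · intro B
    obtain ⟨B', hB'⟩ := key B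
    refine ⟨B', fun B'' hB'' T hT => ?_⟩
    have := Φ.mul _ _ _ _ (hB' B'' hB'' T hT) hu
    rw [sub_add_cancel, sub_mul, Finset.sum_mul] at this
    exact this
  · intro r hr
    obtain ⟨b', hb'⟩ := h2 (r - q) hr
    exact ⟨b + b', Φ.mul _ _ _ _ hu hb'⟩
  · intro B
    obtain ⟨B', hB'⟩ := key B
    refine ⟨B', fun B'' hB'' T hT => ?_⟩
    have := Φ.mul _ _ _ _ hu (hB' B'' hB'' T hT)
    rw [add_sub_cancel, mul_sub, Finset.mul_sum] at this
    exact this

end LCH80
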