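import Pool.Agent.Helper93.LCH.Stmts

set_option autoImplicit false

namespace LCH80

open LCH

universe w

section
variable {A : Type w} [Ring A] {Φ : FR A}

/-- the finite set of the elements of `S` below `B` -/
noncomputable def TT {S : Set ℝ} (h : ∀ B : ℝ, (S ∩ Set.Iio B).Finite) (B : ℝ) : Finset ℝ :=
  (h B).toFinset

theorem mem_TT {S : Set ℝ} (h : ∀ B : ℝ, (S ∩ Set.Iio B).Finite) (B r : ℝ) :
    r ∈ TT h B ↔ r ∈ S ∧ r < B := by
  unfold TT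
  rw [Set.Finite.mem_toFinset]
  rfl

theorem lower {S : Set ℝ} (h : ∀ B : ℝ, (S ∩ Set.Iio B).Finite) :
    ∃ m : ℝ, ∀ r ∈ S, m ≤ r := by
  obtain ⟨m, hm⟩ := (h 0).bddBelow
  refine ⟨min m 0, fun r hr => ?_⟩
  by_cases h0 : r < 0
  · exact (min_le_left _ _).trans (hm ⟨hr, h0⟩)
  · exact (min_le_right _ _).trans (not_lt.mp h0)

theorem gap {S : Set ℝ} (h : ∀ B : ℝ, (S ∩ Set.Iio B).Finite) (r : ℝ) :
    ∃ B : ℝ, r < B ∧ ∀ s ∈ S, s < B → s ≤ r := by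
  by_cases hne : ((TT h (r + 1)).filter (fun s => r < s)).Nonempty
  · refine ⟨((TT h (r + 1)).filter (fun s => r < s)).min' hne, ?_, ?_⟩
    · have := Finset.min'_mem _ hne
      exact (Finset.mem_filter.mp this).2
    · intro s hs hlt
      by_contra hcon
      push Not at hcon
      have hmin := Finset.min'_mem _ hne
      have h2 : ((TT h (r + 1)).filter (fun s => r < s)).min' hne < r + 1 :=
        ((mem_TT h _ _).mp (Finset.mem_filter.mp hmin).1).2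
      have h3 : s ∈ (TT h (r + 1)).filter (fun s => r < s) :=
        Finset.mem_filter.mpr ⟨(mem_TT h _ _).mpr ⟨hs, hlt.trans h2⟩, hcon⟩
      exact absurd (Finset.min'_le _ s h3) (not_le.mpr hlt)
  · refine ⟨r + 1, by linarith, fun s hs hlt => ?_⟩
    by_contra hcon
    push Not at hcon
    exact hne ⟨s, Finset.mem_filter.mpr ⟨(mem_TT h _ _).mpr ⟨hs, hlt⟩, hcon⟩⟩

theorem growth {x : A} {S : Set ℝ} {y : ℝ → A} (h : Expn Φ x S y) (B : ℝ) :
    ∃ R : ℝ, ∀ r ∈ S, R ≤ r → y r ∈ Φ.F B := by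
  obtain ⟨h1, h2, h3⟩ := h
  obtain ⟨B', hB'⟩ := h3 B
  refine ⟨B', fun r hr hR => ?_⟩
  obtain ⟨B2, hB2, hB3⟩ := gap h1 r
  have e1 := hB' r hR (TT h1 r) (mem_TT h1 r)
  have e2 := hB' B2 (hR.trans hB2.le) (insert r (TT h1 r)) (by
    intro s
    rw [Finset.mem_insert, mem_TT]
    constructor
    · rintro (rfl | ⟨hs, hlt⟩)
      · exact ⟨hr, hB2⟩
      · exact ⟨hs, hlt.trans hB2⟩
    · rintro ⟨hs, hlt⟩
      rcases eq_or_lt_of_le (hB3 s hs hlt) with he | hl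
      · exact Or.inl he
      · exact Or.inr ⟨hs, hl⟩)
  have hn : r ∉ TT h1 r := by
    rw [mem_TT]
    rintro ⟨_, hlt⟩
    exact lt_irrefl _ hlt
  rw [Finset.sum_insert hn] at e2
  have := (Φ.F B).sub_mem e1 e2
  have e : (x - ∑ r ∈ TT h1 r, y r) - (x - (y r + ∑ r ∈ TT h1 r, y r)) = y r := by abel
  rw [e] at this
  exact this

theorem fin_bd {y : ℝ → A} (T : Finset ℝ) (h : ∀ r ∈ T, ∃ b : ℝ, y r ∈ Φ.F b) :
    ∃ c : ℝ, ∀ r ∈ T, y r ∈ Φ.F c := by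
  induction T using Finset.induction_on with
  | empty => exact ⟨0, fun r hr => absurd hr (Finset.notMem_empty r)⟩
  | insert a T ha ih =>
    obtain ⟨c, hc⟩ := ih (fun r hr => h r (Finset.mem_insert_of_mem hr))
    obtain ⟨b, hb⟩ := h a (Finset.mem_insert_self a T)
    refine ⟨min b c, fun r hr => ?_⟩
    rcases Finset.mem_insert.mp hr with he | hr
    · rw [he]
      exact Φ.anti _ _ (min_le_left _ _) hb
    · exact Φ.anti _ _ (min_le_right _ _) (hc r hr)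

theorem unif {x : A} {S : Set ℝ} {y : ℝ → A} (h : Expn Φ x S y) :
    ∃ c : ℝ, ∀ c' : ℝ, c ≤ c' → (∀ r ∈ S, y r ∈ Φ.F (-c')) ∧ x ∈ Φ.F (-c') := by
  obtain ⟨R, hR⟩ := growth h 0
  obtain ⟨h1, h2, h3⟩ := h
  obtain ⟨B', hB'⟩ := h3 0
  obtain ⟨c0, hc0⟩ := fin_bd (Φ := Φ) (y := y) (TT h1 R)
    (fun r hr => h2 r ((mem_TT h1 _ _).mp hr).1)
  have key : ∀ r ∈ S, y r ∈ Φ.F (min 0 c0) := by
    intro r hr
    by_cases hlt : r < R
    · exact Φ.anti _ _ (min_le_right _ _) (hc0 r ((mem_TT h1 _ _).mpr ⟨hr, hlt⟩))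
    · exact Φ.anti _ _ (min_le_left _ _) (hR r hr (not_lt.mp hlt))
  have hx : x ∈ Φ.F (min 0 c0) := by
    have e1 := hB' B' le_rfl (TT h1 B') (mem_TT h1 B')
    have e2 : ∑ r ∈ TT h1 B', y r ∈ Φ.F (min 0 c0) :=
      (Φ.F _).sum_mem (fun r hr => key r ((mem_TT h1 _ _).mp hr).1)
    have := (Φ.F (min 0 c0)).add_mem (Φ.anti _ _ (min_le_left _ _) e1) e2
    rw [sub_add_cancel] at this
    exact this
  refine ⟨-(min 0 c0), fun c' hc' => ⟨fun r hr => ?_, ?_⟩⟩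
  · exact Φ.anti _ _ (by linarith) (key r hr)
  · exact Φ.anti _ _ (by linarith) hx

end

end LCH80
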